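import Pool.Agent.Helper45.FG.St

/-!
# Module FGG of project FG (MP_7221b2_al): every fusion ring has a positive Galois gap
-/

set_option autoImplicit false

namespace Pool.Agent.Helper26.FG

open Pool.Agent.Helper45.FG
open scoped BigOperators

/-- A root of the minimal polynomial of a dimension is dominated by the dimension. -/
private theorem root_le (hFCH : StFCH) (hFIN : StFIN) (I : Type) [Fintype I] (R : FusionRing I)
    (d : I → ℝ) (hd : IsDim R d) (i : I) (z : ℂ)
    (hz : Polynomial.aeval z (minpoly ℚ (d i)) = 0) : ‖z‖ ≤ d i := by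
  have hint : ∀ j, IsIntegral ℚ (d j) := fun j => ((hFIN I R d hd).2.1 j).tower_top
  have hK : ∀ s ∈ Set.range d, IsIntegral ℚ s ∧
      ((minpoly ℚ s).map (algebraMap ℚ ℂ)).Splits := by
    rintro s ⟨j, rfl⟩
    exact ⟨hint j, IsAlgClosed.splits _⟩
  have hm : ∀ j, d j ∈ IntermediateField.adjoin ℚ (Set.range d) := fun j =>
    IntermediateField.subset_adjoin ℚ _ (Set.mem_range_self j)
  obtain ⟨φ, hφ⟩ := IntermediateField.exists_algHom_adjoin_of_splits_of_aeval hK (hm i) hz
  have hchi : ∀ a b, (fun j => φ ⟨d j, hm j⟩) a * (fun j => φ ⟨d j, hm j⟩) b =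
      ∑ k, (R.N a b k : ℂ) * (fun j => φ ⟨d j, hm j⟩) k := by
    intro a b
    have h1 : (⟨d a, hm a⟩ : IntermediateField.adjoin ℚ (Set.range d)) * ⟨d b, hm b⟩ =
        ∑ k, ((R.N a b k : ℕ) : IntermediateField.adjoin ℚ (Set.range d)) * ⟨d k, hm k⟩ := by
      apply Subtype.ext
      push_cast
      exact hd.mul a b
    have h2 := congrArg φ h1
    rw [map_mul, map_sum] at h2
    simp only [map_mul, map_natCast] at h2
    exact h2
  have h := hFCH I R d hd (fun j => φ ⟨d j, hm j⟩) hchi i
  simp only [hφ] at h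
  exact h

private theorem fin_pos {α : Type} (s : Finset α) (f : α → ℝ) (h : ∀ x ∈ s, 0 < f x) :
    ∃ γ : ℝ, 0 < γ ∧ ∀ x ∈ s, γ ≤ f x := by
  classical
  induction s using Finset.induction_on with
  | empty => exact ⟨1, one_pos, by simp⟩
  | insert a s ha ih =>
    obtain ⟨γ, h0, h1⟩ := ih (fun x hx => h x (Finset.mem_insert_of_mem hx))
    refine ⟨min γ (f a), lt_min h0 (h a (Finset.mem_insert_self a s)), ?_⟩
    intro x hx
    rcases Finset.mem_insert.1 hx with rfl | hx
    · exact min_le_right _ _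
    · exact (min_le_left _ _).trans (h1 x hx)

private theorem gap_one (hFCH : StFCH) (hFIN : StFIN) (I : Type) [Fintype I] (R : FusionRing I)
    (d : I → ℝ) (hd : IsDim R d) (i : I) : ∃ γ : ℝ, 0 < γ ∧ GalGap γ (d i) := by
  classical
  have hint : IsIntegral ℚ (d i) := ((hFIN I R d hd).2.1 i).tower_top
  have hne : minpoly ℚ (d i) ≠ 0 := minpoly.ne_zero hint
  obtain ⟨γ, h0, h1⟩ := fin_pos
    ((((minpoly ℚ (d i)).aroots ℂ).toFinset).filter (fun z => ‖z‖ < d i))
    (fun z => d i - ‖z‖) (by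
      intro z hz
      have := (Finset.mem_filter.1 hz).2
      linarith)
  refine ⟨γ, h0, ?_⟩
  intro z hz
  have hle := root_le hFCH hFIN I R d hd i z hz
  rcases hle.lt_or_eq with hlt | heq
  · right
    have hmem : z ∈ (((minpoly ℚ (d i)).aroots ℂ).toFinset).filter (fun z => ‖z‖ < d i) := by
      rw [Finset.mem_filter]
      refine ⟨?_, hlt⟩
      rw [Multiset.mem_toFinset, Polynomial.mem_aroots]
      exact ⟨hne, hz⟩
    have h2 := h1 z hmem
    linarith
  · left
    exact heq

/-- Module FGG. -/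
theorem hFGG (hFCH : StFCH) (hFIN : StFIN) : StFGG := by
  intro I _ R d hd
  choose g hg0 hg1 using gap_one hFCH hFIN I R d hd
  obtain ⟨γ, h0, h1⟩ := fin_pos (Finset.univ : Finset I) g (fun i _ => hg0 i)
  refine ⟨γ, h0, ?_⟩
  intro i z hz
  rcases hg1 i z hz with h | h
  · left
    exact h
  · right
    have := h1 i (Finset.mem_univ i)
    linarith

end Pool.Agent.Helper26.FG
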